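import Pool.Agent.V7H62.AC.Br

/-!
# Covering `[1, N]` by one residue class for each prime near `N^α`: additively structured choices

For `0 < α < 1` let `S_a(N)` (`coveredCount α N a`) be the number of the integers of `[1, N]` in the class
`a(p)` modulo `p` for at least one prime `N^α ≤ p < 2 N^α`. The question is whether `S_a(N) ≥ N^(1 - o(1))` for
`1 / 2 < α < 1`, uniformly over all choices `a` of the classes.

We show that a choice which covers few integers has no additive structure. Write `a(p) = s + b(p)` modulo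
`p` with integers `b(p)`, and count the additive quadruples of the graph of `b`, the
`(p₁, p₂, p₃, p₄)` with `p₁ + p₂ = p₃ + p₄` and `b(p₁) + b(p₂) = b(p₃) + b(p₄)`. Their number is at most the cube of
the number of the primes, and a power `N^(-δ)` of this maximum is enough for our bound.

1. Let `0 < α < 1`, `β < 1`, `δ ≥ 0`, `ε > 0`. For all large `N`, all choices `a`, all sets `Q` of primes of the
   range, all integers `0 ≤ s ≤ N` and all integers `b(p)` with `s + b(p) ≡ a(p) (mod p)` and `|b(p)| ≤ 2 N^β` for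
   `p ∈ Q`: if there are at least `N^(3 α - δ)` additive quadruples in `Q` then
   `S_a(N) ≥ N^(min (1, 2 - α - β / 2) - 27 δ - ε)`. For `β ≤ 2 - 2 α` this is `N^(1 - 27 δ - ε)`.
2. With the least residues of `a(p) - s` (so `β = α`): if `S_a(N) < N^(min (1, 2 - 3 α / 2) - ε)` then, for all
   `0 ≤ s ≤ N` and all sets `Q` of primes of the range, there are fewer than `N^(3 α - ε / 28)` additive
   quadruples.
3. For `α ≤ 2 / 3`: if `S_a(N) < N^(1 - ε)` then there are fewer than `N^(3 α - ε / 28)` of them.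
   So a choice violating the bound of the question for `1 / 2 < α ≤ 2 / 3` has no additive structure.
4. Examples, for every `m`: the choices `a(p) = s + ⌊γ + ϑ p + c₁ {θ₁ p + φ₁} + ... + c_m {θ_m p + φ_m}⌋` with
   arbitrary real `γ`, `ϑ`, `cᵢ`, `θᵢ`, `φᵢ` (depending on `N`) on a set `Q` of at least `N^(α - ε / 280)`
   primes, as long as the integer parts are at most `2 N^β` in absolute value: the bound is
   `S_a(N) ≥ N^(min (1, 2 - α - β / 2) - ε)`. Here `{x}` is the fractional part.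

Proof. By the theorem of Balog, Szemerédi and Gowers the graph has a large part `G` with `G - G` of size
`V |G|`. For `L ≤ l < 2 L`, `L` about `N^(1 - α) / 16`, the integers `s + b(p) + l p` are covered. If two
of them coincide for `(p, l)` and `(q, k)` with `l ≠ k`, then `q` divides the nonzero integer
`(b(p) - b(q)) + l (p - q)`, which depends only on `l` and an element of `G - G`, and which has a bounded
number of prime factors near `N^α`. If they coincide with `l = k`, then `(p - q, b(p) - b(q))` is an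
element of `G - G` on the line of slope `-l`. Let `M_l` be the set of these elements, they are near the second
axis. For `l ≠ l'` the sums of the elements of `M_l` and of `M_l'` lie in `2 G - 2 G` near the axis, where
there are few points, as all fibers of `2 G - 2 G` over the first coordinate have at most `V^5` points by the
inequality of Plünnecke. And a point is such a sum, for given `l'`, in at most as many ways as a certain
nonzero integer has divisors. This bounds the sum of all `|M_l|` except the largest one, and the inequality of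
Cauchy and Schwarz gives the result.
-/

set_option autoImplicit false

open Finset Filter

namespace Pool.Agent.Results.MP_bb5cc8_nt.AdditiveChoicesH62

open Pool.Agent.H170R2.PC Pool.Agent.V7H62.AC

/-- Choices with many additive quadruples cover many integers. `coveredCount α N a` is `S_a(N)`,
`InRange α N p` says that `p` is a prime with `N^α ≤ p < 2 N^α`, `quadruples Q b` is the number of the
`(p₁, p₂, p₃, p₄)` in `Q⁴` with `p₁ + p₂ = p₃ + p₄` and `b(p₁) + b(p₂) = b(p₃) + b(p₄)`, and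
`bracket γ ϑ c θ φ p` is `γ + ϑ p + ∑ cᵢ {θᵢ p + φᵢ}`. -/
theorem result (α : ℝ) (h0 : 0 < α) (h1 : α < 1) :
    (∀ β δ ε : ℝ, β < 1 → 0 ≤ δ → 0 < ε → ∃ N₀ : ℕ, ∀ N : ℕ, N₀ ≤ N →
      ∀ a : (p : ℕ) → ZMod p, ∀ Q : Finset ℕ, (∀ p ∈ Q, InRange α N p) →
      ∀ (s : ℕ) (b : ℕ → ℤ), s ≤ N →
      (∀ p ∈ Q, (((s : ℤ) + b p : ℤ) : ZMod p) = a p) →
      (∀ p ∈ Q, |(b p : ℝ)| ≤ 2 * (N : ℝ) ^ β) →
      (N : ℝ) ^ (3 * α - δ) ≤ (quadruples Q b : ℝ) →
      (N : ℝ) ^ (min 1 (2 - α - β / 2) - 27 * δ - ε) ≤ (coveredCount α N a : ℝ)) ∧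
    (∀ ε : ℝ, 0 < ε → ∃ N₀ : ℕ, ∀ N : ℕ, N₀ ≤ N → ∀ a : (p : ℕ) → ZMod p,
      (coveredCount α N a : ℝ) < (N : ℝ) ^ (min 1 (2 - 3 * α / 2) - ε) →
      ∀ Q : Finset ℕ, (∀ p ∈ Q, InRange α N p) → ∀ s : ℕ, s ≤ N →
      (quadruples Q (fun p => ((a p - (s : ZMod p)).val : ℤ)) : ℝ)
        < (N : ℝ) ^ (3 * α - ε / 28)) ∧
    (α ≤ 2 / 3 → ∀ ε : ℝ, 0 < ε → ∃ N₀ : ℕ, ∀ N : ℕ, N₀ ≤ N → ∀ a : (p : ℕ) → ZMod p,
      (coveredCount α N a : ℝ) < (N : ℝ) ^ (1 - ε) →
      ∀ Q : Finset ℕ, (∀ p ∈ Q, InRange α N p) → ∀ s : ℕ, s ≤ N →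
      (quadruples Q (fun p => ((a p - (s : ZMod p)).val : ℤ)) : ℝ)
        < (N : ℝ) ^ (3 * α - ε / 28)) ∧
    (∀ (m : ℕ) (β ε : ℝ), β < 1 → 0 < ε → ∃ N₀ : ℕ, ∀ N : ℕ, N₀ ≤ N →
      ∀ a : (p : ℕ) → ZMod p, ∀ Q : Finset ℕ, (∀ p ∈ Q, InRange α N p) →
      (N : ℝ) ^ (α - ε / 280) ≤ (Q.card : ℝ) →
      ∀ (γ ϑ : ℝ) (c θ φ : Fin m → ℝ) (s : ℕ), s ≤ N →
      (∀ p ∈ Q, (((s : ℤ) + ⌊bracket γ ϑ c θ φ p⌋ : ℤ) : ZMod p) = a p) →
      (∀ p ∈ Q, |(⌊bracket γ ϑ c θ φ p⌋ : ℝ)| ≤ 2 * (N : ℝ) ^ β) →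
      (N : ℝ) ^ (min 1 (2 - α - β / 2) - ε) ≤ (coveredCount α N a : ℝ)) := by
  have h2 : ∀ ε : ℝ, 0 < ε → ∃ N₀ : ℕ, ∀ N : ℕ, N₀ ≤ N → ∀ a : (p : ℕ) → ZMod p,
      (coveredCount α N a : ℝ) < (N : ℝ) ^ (min 1 (2 - 3 * α / 2) - ε) →
      ∀ Q : Finset ℕ, (∀ p ∈ Q, InRange α N p) → ∀ s : ℕ, s ≤ N →
      (quadruples Q (fun p => ((a p - (s : ZMod p)).val : ℤ)) : ℝ)
        < (N : ℝ) ^ (3 * α - ε / 28) := by
    intro ε hε
    obtain ⟨N₀, hN⟩ := eventually_atTop.mp (few_quadruples h0 h1 hε)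
    exact ⟨N₀, hN⟩
  refine ⟨?_, h2, ?_, ?_⟩
  · intro β δ ε hβ hδ hε
    obtain ⟨N₀, hN⟩ := eventually_atTop.mp (structured h0 h1 hβ hδ hε)
    exact ⟨N₀, fun N hN0 a Q hQ s b => hN N hN0 a Q hQ b s⟩
  · intro hα ε hε
    have e : min 1 (2 - 3 * α / 2) = 1 := min_eq_left (by linarith)
    have := h2 ε hε
    rwa [e] at this
  · intro m β ε hβ hε
    obtain ⟨N₀, hN⟩ := eventually_atTop.mp (bracket_choices h0 h1 hβ hε m)
    exact ⟨N₀, hN⟩

end Pool.Agent.Results.MP_bb5cc8_nt.AdditiveChoicesH62
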