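import Pool.Agent.V7H18.DC.Asym

/-!
# Covering `[1, N]` by one residue class for each prime near `N^α`: affine images of an arbitrary choice

For `0 < α < 1` let `S_a(N)` (`coveredCount α N a`) be the number of the integers of `[1, N]` in the class
`a(p)` modulo `p` for at least one prime `N^α ≤ p < 2 N^α`. The question is whether `S_a(N) ≥ N^(1 - o(1))` for
`1 / 2 < α < 1`, uniformly over all choices `a` of the classes. We show that, for EVERY choice `a`, the bound
holds for almost all affine images `(k / l) a - b` of `a`, in every family of at least `N^(2α - 1)` essentially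
different ones: `K ≤ k < 2 K`, `L ≤ l < 2 L`, `0 ≤ b < B` with `K L max (1, B / N) ≥ N^(2α - 1)`. For
instance for almost all dilates `(k / l) a` with `k` and `l` of size `N^(α - 1/2)`, for almost all dilates `k a`
with `k` of size `N^(2α - 1)`, and for almost all translates `a - b`, `0 ≤ b < N^(2α)`.

1. For every `δ > 0` there is `c > 0` such that for all large `N`, ALL choices `a` and all `K ≤ N^α / 2`, `B ≥ 1`
   with `K max (1, B / N) ≥ N^(2α - 1)`, all but at most `δ K B` of the pairs `(k, b)` satisfy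
   `S_{k a - b}(N) ≥ c N / log N`, which is the true order of magnitude.
2. For every `ε > 0` there is `η > 0` such that for all large `N`, ALL choices `a` and all
   `K, L ≤ N^α / 2`, `1 ≤ B ≤ N^2` with `K L max (1, B / N) ≥ N^(2α - 1)`, all but at most `N^(-η) K L B` of the
   triples `(k, l, b)` satisfy `S_{(k / l) a - b}(N) ≥ N^(1 - ε)`.
3. and 4. The same for all sizes of `K`, `L`, `B` and for the classes of an arbitrary set `Q` of primes of the range
   only: the bounds are `c min (|Q| N^(1 - α), K max (1, B / N) N^(2 - 2α))` and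
   `N^(-ε) min (|Q| N^(1 - α), K L max (1, B / N) N^(2 - 2α))`.

Proof. The points `(l n, k)` with `l n ≡ k a(p) (mod p)` lie in a lattice `Λ_p` of determinant `p`, and for
different primes any two points of `Λ_p ∩ Λ_q` have a determinant divisible by `p q`. So the
points `(m, k)` of `Λ_p ∩ Λ_q` with `1 ≤ m ≤ M`, `K ≤ k < 2 K` have at most `4 K M / (p q) + 1` slopes
`m / k`, and each slope carries at most `G` points with `gcd (m, k) ≤ G`. The points with a greater
greatest common divisor are few, on average over `(k, l, b)`, for each single prime. This bounds the second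
moment over the remaining points, averaged over `(k, l, b)`, and Cauchy's inequality gives the result.
-/

set_option autoImplicit false

open Finset Filter Topology

namespace Pool.Agent.Results.MP_bb5cc8_nt.AffineImagesH18

open Pool.Agent.H170R2.PC Pool.Agent.V7H18.DC

lemma ev_min {α : ℝ} (h0 : 0 < α) (h1 : α < 1) : ∀ᶠ N : ℕ in atTop, ∀ X : ℝ,
    (N : ℝ) ^ (2 * α - 1) ≤ X →
    N / (4 * Real.log N) ≤ min ((PD α N).card * (N : ℝ) ^ (1 - α)) (X * (N : ℝ) ^ (2 - 2 * α)) := by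
  have hlog : Tendsto (fun N : ℕ => Real.log (N : ℝ)) atTop atTop :=
    Real.tendsto_log_atTop.comp tendsto_natCast_atTop_atTop
  filter_upwards [Pool.Agent.R416.CV.ev_primes h0 h1, hlog.eventually (eventually_ge_atTop 1),
    eventually_ge_atTop 1] with N e1 e2 e3 X hX
  have hN0 : (0 : ℝ) < N := by exact_mod_cast e3
  have hl0 : 0 < Real.log (N : ℝ) := by linarith
  refine le_min ?_ ?_
  · rw [div_le_iff₀ (by positivity)]
    calc (N : ℝ) = (N : ℝ) ^ α * (N : ℝ) ^ (1 - α) := by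
          rw [← Real.rpow_add hN0]
          simp
      _ ≤ 4 * (((PD α N).card : ℝ) * Real.log N) * (N : ℝ) ^ (1 - α) := by gcongr
      _ = _ := by ring
  · calc (N : ℝ) / (4 * Real.log N) ≤ N := div_le_self hN0.le (by linarith)
      _ = (N : ℝ) ^ (2 * α - 1) * (N : ℝ) ^ (2 - 2 * α) := by
          rw [← Real.rpow_add hN0]
          have : 2 * α - 1 + (2 - 2 * α) = 1 := by ring
          rw [this, Real.rpow_one]
      _ ≤ _ := by gcongr

open Classical in
/-- Almost all affine images `(k / l) a - b` of every choice `a` of residue classes cover many integers.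
`coveredCount α N a` is `S_a(N)`, `coveredBy Q N a` is the number of the integers of `[1, N]` covered by
the classes modulo the primes of `Q`, `affine k l b a` is the choice `k l⁻¹ a(p) - b` modulo `p`, and
`InRange α N p` says that `p` is a prime with `N^α ≤ p < 2 N^α`. -/
theorem result (α : ℝ) (h0 : 0 < α) (h1 : α < 1) :
    (∀ δ : ℝ, 0 < δ → ∃ (c : ℝ) (N₀ : ℕ), 0 < c ∧ ∀ N : ℕ, N₀ ≤ N → ∀ a : (p : ℕ) → ZMod p,
      ∀ K B : ℕ, 1 ≤ B → (N : ℝ) ^ (2 * α - 1) ≤ K * max 1 ((B : ℝ) / N) →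
      2 * (K : ℝ) ≤ (N : ℝ) ^ α →
      ((((Ico K (2 * K)) ×ˢ (range B)).filter fun x : ℕ × ℕ =>
        (coveredCount α N (fun p => (x.1 : ZMod p) * a p - (x.2 : ZMod p)) : ℝ)
          < c * N / Real.log N).card : ℝ)
        ≤ δ * (K * B)) ∧
    (∀ ε : ℝ, 0 < ε → ∃ (η : ℝ) (N₀ : ℕ), 0 < η ∧ ∀ N : ℕ, N₀ ≤ N → ∀ a : (p : ℕ) → ZMod p,
      ∀ K L B : ℕ, 1 ≤ B → B ≤ N ^ 2 → (N : ℝ) ^ (2 * α - 1) ≤ K * L * max 1 ((B : ℝ) / N) →
      2 * (K : ℝ) ≤ (N : ℝ) ^ α → 2 * (L : ℝ) ≤ (N : ℝ) ^ α →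
      ((((Ico K (2 * K)) ×ˢ ((Ico L (2 * L)) ×ˢ (range B))).filter fun x : ℕ × ℕ × ℕ =>
        (coveredCount α N (affine x.1 x.2.1 x.2.2 a) : ℝ) < (N : ℝ) ^ (1 - ε)).card : ℝ)
        ≤ (N : ℝ) ^ (-η) * (K * L * B)) ∧
    (∀ δ : ℝ, 0 < δ → ∃ (c : ℝ) (N₀ : ℕ), 0 < c ∧ ∀ N : ℕ, N₀ ≤ N → ∀ a : (p : ℕ) → ZMod p,
      ∀ Q : Finset ℕ, (∀ p ∈ Q, InRange α N p) → ∀ K B : ℕ, 1 ≤ K → 1 ≤ B →
      2 * (K : ℝ) ≤ (N : ℝ) ^ α →
      ((((Ico K (2 * K)) ×ˢ (range B)).filter fun x : ℕ × ℕ =>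
        (coveredBy Q N (fun p => (x.1 : ZMod p) * a p - (x.2 : ZMod p)) : ℝ)
        < c * min (Q.card * (N : ℝ) ^ (1 - α))
          (K * max 1 ((B : ℝ) / N) * (N : ℝ) ^ (2 - 2 * α))).card : ℝ)
        ≤ δ * (K * B)) ∧
    (∀ ε : ℝ, 0 < ε → ∃ (η : ℝ) (N₀ : ℕ), 0 < η ∧ ∀ N : ℕ, N₀ ≤ N → ∀ a : (p : ℕ) → ZMod p,
      ∀ Q : Finset ℕ, (∀ p ∈ Q, InRange α N p) → ∀ K L B : ℕ, 1 ≤ K → 1 ≤ L → 1 ≤ B →
      2 * (K : ℝ) ≤ (N : ℝ) ^ α → 2 * (L : ℝ) ≤ (N : ℝ) ^ α → B ≤ N ^ 2 →
      ((((Ico K (2 * K)) ×ˢ ((Ico L (2 * L)) ×ˢ (range B))).filter fun x : ℕ × ℕ × ℕ =>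
        (coveredBy Q N (affine x.1 x.2.1 x.2.2 a) : ℝ) < (N : ℝ) ^ (-ε)
          * min (Q.card * (N : ℝ) ^ (1 - α))
            (K * L * max 1 ((B : ℝ) / N) * (N : ℝ) ^ (2 - 2 * α))).card : ℝ)
        ≤ (N : ℝ) ^ (-η) * (K * L * B)) := by
  refine ⟨fun δ hδ => ?_, fun ε hε => ?_, integer_affine h0 h1, rational_affine h0 h1⟩
  · obtain ⟨c, N₀, hc, h⟩ := integer_affine h0 h1 δ hδ
    obtain ⟨N₁, hN₁⟩ := eventually_atTop.1 ((ev_min h0 h1).and (eventually_ge_atTop 1))
    refine ⟨c / 4, max N₀ N₁, by positivity, fun N hN a K B hB hKB h2K => ?_⟩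
    obtain ⟨e1, e2⟩ := hN₁ N ((le_max_right _ _).trans hN)
    have hN0 : (0 : ℝ) < N := by exact_mod_cast e2
    have hJ0 : 0 < max 1 ((B : ℝ) / N) := lt_of_lt_of_le one_pos (le_max_left _ _)
    have hK1 : 1 ≤ K := by
      have h1 : (0 : ℝ) < K * max 1 ((B : ℝ) / N) :=
        lt_of_lt_of_le (Real.rpow_pos_of_pos hN0 _) hKB
      have h2 : (0 : ℝ) < K := pos_of_mul_pos_left h1 hJ0.le
      exact_mod_cast h2
    have hm := h N ((le_max_left _ _).trans hN) a (PD α N) (fun p hp => mem_PD.mp hp) K B hK1 hB h2K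
    refine le_trans ?_ hm
    have hsub : (((Ico K (2 * K)) ×ˢ (range B)).filter fun x : ℕ × ℕ =>
        (coveredCount α N (fun p => (x.1 : ZMod p) * a p - (x.2 : ZMod p)) : ℝ)
          < c / 4 * N / Real.log N)
        ⊆ (((Ico K (2 * K)) ×ˢ (range B)).filter fun x : ℕ × ℕ =>
          (coveredBy (PD α N) N (fun p => (x.1 : ZMod p) * a p - (x.2 : ZMod p)) : ℝ)
          < c * min ((PD α N).card * (N : ℝ) ^ (1 - α))
            (K * max 1 ((B : ℝ) / N) * (N : ℝ) ^ (2 - 2 * α))) := by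
      intro x hx
      rw [mem_filter] at hx ⊢
      refine ⟨hx.1, ?_⟩
      rw [← coveredCount_eq_by]
      refine lt_of_lt_of_le hx.2 ?_
      have h3 := mul_le_mul_of_nonneg_left (e1 _ hKB) hc.le
      have h4 : c / 4 * N / Real.log N = c * (N / (4 * Real.log N)) := by
        ring
      rw [h4]
      exact h3
    exact_mod_cast card_le_card hsub
  · obtain ⟨η, N₀, hη, h⟩ := rational_affine h0 h1 (ε / 2) (by positivity)
    have hl := (isLittleO_log_rpow_atTop (show 0 < ε / 2 by positivity)).bound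
      (show (0 : ℝ) < 1 / 4 by norm_num)
    have hl2 := tendsto_natCast_atTop_atTop.eventually hl
    have hlog : Tendsto (fun N : ℕ => Real.log (N : ℝ)) atTop atTop :=
      Real.tendsto_log_atTop.comp tendsto_natCast_atTop_atTop
    obtain ⟨N₁, hN₁⟩ := eventually_atTop.1 (((ev_min h0 h1).and (eventually_ge_atTop 1)).and
      (hl2.and (hlog.eventually (eventually_ge_atTop 1))))
    refine ⟨η, max N₀ N₁, hη, fun N hN a K L B hB hBN hKL h2K h2L => ?_⟩
    obtain ⟨⟨e1, e2⟩, e3, e4⟩ := hN₁ N ((le_max_right _ _).trans hN)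
    have hN0 : (0 : ℝ) < N := by exact_mod_cast e2
    have hJ0 : 0 < max 1 ((B : ℝ) / N) := lt_of_lt_of_le one_pos (le_max_left _ _)
    have hKL0 : (0 : ℝ) < K * L := by
      have h1 : (0 : ℝ) < K * L * max 1 ((B : ℝ) / N) :=
        lt_of_lt_of_le (Real.rpow_pos_of_pos hN0 _) hKL
      exact pos_of_mul_pos_left h1 hJ0.le
    have hKL1 : 0 < K * L := by exact_mod_cast hKL0
    have hK1 : 1 ≤ K := Nat.pos_of_mul_pos_right hKL1
    have hL1 : 1 ≤ L := Nat.pos_of_mul_pos_left hKL1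
    have hm := h N ((le_max_left _ _).trans hN) a (PD α N) (fun p hp => mem_PD.mp hp) K L B hK1 hL1
      hB h2K h2L hBN
    refine le_trans ?_ hm
    have hsub : (((Ico K (2 * K)) ×ˢ ((Ico L (2 * L)) ×ˢ (range B))).filter fun x : ℕ × ℕ × ℕ =>
        (coveredCount α N (affine x.1 x.2.1 x.2.2 a) : ℝ) < (N : ℝ) ^ (1 - ε))
        ⊆ (((Ico K (2 * K)) ×ˢ ((Ico L (2 * L)) ×ˢ (range B))).filter fun x : ℕ × ℕ × ℕ =>
        (coveredBy (PD α N) N (affine x.1 x.2.1 x.2.2 a) : ℝ) < (N : ℝ) ^ (-(ε / 2))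
          * min ((PD α N).card * (N : ℝ) ^ (1 - α))
            (K * L * max 1 ((B : ℝ) / N) * (N : ℝ) ^ (2 - 2 * α))) := by
      intro x hx
      rw [mem_filter] at hx ⊢
      refine ⟨hx.1, ?_⟩
      rw [← coveredCount_eq_by]
      refine lt_of_lt_of_le hx.2 ?_
      have h3 := mul_le_mul_of_nonneg_left (e1 _ hKL)
        (show 0 ≤ (N : ℝ) ^ (-(ε / 2)) by positivity)
      refine le_trans ?_ h3
      have hl0 : 0 < Real.log (N : ℝ) := by linarith
      have h5 : 4 * Real.log N ≤ (N : ℝ) ^ (ε / 2) := by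
        have := (le_abs_self _).trans e3
        rw [Real.norm_of_nonneg (by positivity)] at this
        linarith
      have h6 : (N : ℝ) ^ (-(ε / 2)) ≤ 1 / (4 * Real.log N) := by
        rw [Real.rpow_neg hN0.le, ← one_div]
        exact one_div_le_one_div_of_le (by positivity) h5
      calc (N : ℝ) ^ (1 - ε) = (N : ℝ) ^ (-(ε / 2)) * (N * (N : ℝ) ^ (-(ε / 2))) := by
            have e : (N : ℝ) ^ (1 - ε)
                = (N : ℝ) ^ (-(ε / 2)) * ((N : ℝ) ^ (1 : ℝ) * (N : ℝ) ^ (-(ε / 2))) := by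
              rw [← Real.rpow_add hN0, ← Real.rpow_add hN0]
              congr 1
              ring
            rw [e, Real.rpow_one]
        _ ≤ (N : ℝ) ^ (-(ε / 2)) * (N * (1 / (4 * Real.log N))) := by gcongr
        _ = _ := by ring
    exact_mod_cast card_le_card hsub

end Pool.Agent.Results.MP_bb5cc8_nt.AffineImagesH18
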