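import Pool.Agent.V7H24.QP.Asym

/-!
# Covering `[1, N]` by one residue class for each prime near `N^α`: piecewise smooth choices

Choices `a` of the residue classes that follow a piecewise smooth function (`Follows`, with arbitrary pieces
`[j N^ρ, (j + 1) N^ρ)` of the range of the primes) cover at least `N^(1 - loss - o(1))` integers of `[1, N]`. In
particular the bound `N^(1 - o(1))` of the question holds

* for `2/3 ≤ α < 1` and all choices `a(p)` near `N^α h(p / N^α)`, where `h` is differentiable with a Lipschitz derivative;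
* for `1/2 ≤ α < 1` and all choices `a(p)` near `s_j p + t_j` on the piece `j`, where `s_j`, `|t_j| ≤ N^α` are arbitrary
  reals and `ρ ≥ max (1 - α) (2 α - 1)`.

Proof: second moment. Let `P = N^α`, `M = N^(1 - α)`. The integer solutions of `k x + F(x) = l y + F(y) + O(1)` with
`k, l ≍ M`, `x, y ≍ P` are counted as follows. Cut the range of `x` into blocks of length `B ≤ M`. Each `k, l` and block
have a first solution `(x, y)`; another solution `(x + t, y + t')` gives `t k - t' l = t' F'(y) - t F'(x) + O(1)`. Here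
`y` is known up to `O(P / M)` from `t, t'` and the block (as `y / x = t' / t + O(1 / M)`), so that `t k - t' l` lies in a
short interval, and `k, l` are integral points on few lines.
-/

set_option autoImplicit false

namespace Pool.Agent.Results.MP_bb5cc8_nt.PiecewiseSmoothH24

open Filter Topology Finset
open Pool.Agent.H170R2.PC Pool.Agent.V7H24.QP

/-- Taylor's formula for a function with a Lipschitz derivative -/
lemma taylor {h h' : ℝ → ℝ} {L : ℝ} (hd : ∀ x ∈ Set.Icc (1 : ℝ) 2, HasDerivWithinAt h (h' x) (Set.Icc 1 2) x)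
    (hL : ∀ x ∈ Set.Icc (1 : ℝ) 2, ∀ y ∈ Set.Icc (1 : ℝ) 2, |h' x - h' y| ≤ L * |x - y|) {u v : ℝ}
    (hu : u ∈ Set.Icc (1 : ℝ) 2) (hv : v ∈ Set.Icc (1 : ℝ) 2) : |h v - h u - (v - u) * h' u| ≤ L * |v - u| ^ 2 := by
  have hsub : Set.uIcc u v ⊆ Set.Icc (1 : ℝ) 2 := Set.uIcc_subset_Icc hu hv
  have hL0 : 0 ≤ L := by
    have h1 := hL 1 ⟨le_rfl, by norm_num⟩ 2 ⟨by norm_num, le_rfl⟩
    have h2 := abs_nonneg (h' 1 - h' 2)
    norm_num at h1
    linarith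
  have key := Convex.norm_image_sub_le_of_norm_hasDerivWithin_le (f := fun s => h s - s * h' u)
    (f' := fun s => h' s - h' u) (C := L * |v - u|) (s := Set.uIcc u v) (x := u) (y := v)
    (fun s hs => by
      have h1 := ((hd s (hsub hs)).mono hsub).fun_sub ((hasDerivWithinAt_id s (Set.uIcc u v)).mul_const (h' u))
      simpa using h1)
    (fun s hs => by
      rw [Real.norm_eq_abs]
      refine (hL s (hsub hs) u hu).trans ?_
      have h3 : |s - u| ≤ |v - u| := Set.abs_sub_left_of_mem_uIcc hs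
      gcongr)
    (convex_uIcc u v) Set.left_mem_uIcc Set.right_mem_uIcc
  rw [Real.norm_eq_abs, Real.norm_eq_abs] at key
  have e : h v - h u - (v - u) * h' u = h v - v * h' u - (h u - u * h' u) := by ring
  rw [e]
  refine key.trans (le_of_eq ?_)
  ring

/-- the number of the primes of the range -/
lemma ev_card {α η : ℝ} (h0 : 0 < α) (h1 : α < 1) (hη : 0 < η) : ∀ᶠ N : ℕ in atTop,
    (N : ℝ) ^ (α - η) ≤ ((Pool.Agent.H170R2.PC.PD α N).card : ℝ) := by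
  filter_upwards [Pool.Agent.R416.CV.ev_primes h0 h1, ev_log' hη (show (0 : ℝ) < 4 by norm_num),
    eventually_ge_atTop 1] with N h2 h3 h4
  have h5 : (1 : ℝ) ≤ N := by exact_mod_cast h4
  have hN0 : (0 : ℝ) < N := by linarith
  have hlog := Real.log_nonneg h5
  have h6 : 4 * Real.log N ≤ (N : ℝ) ^ η := by
    refine le_trans ?_ h3
    nlinarith
  have hpos : 0 < (N : ℝ) ^ η := by positivity
  refine le_of_mul_le_mul_right ?_ hpos
  rw [← Real.rpow_add hN0]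
  have e : α - η + η = α := by ring
  rw [e]
  calc (N : ℝ) ^ α ≤ 4 * (((Pool.Agent.H170R2.PC.PD α N).card : ℝ) * Real.log N) := h2
    _ = ((Pool.Agent.H170R2.PC.PD α N).card : ℝ) * (4 * Real.log N) := by ring
    _ ≤ _ := by gcongr

/-- all the primes of the range follow `f` -/
lemma card_all {α δ : ℝ} {N : ℕ} {a : (p : ℕ) → ZMod p} {f : ℝ → ℝ} (hN : 1 ≤ N) (hδ : 0 ≤ δ)
    (h : ∀ p : ℕ, InRange α N p → ∃ b : ℤ, ((b : ℤ) : ZMod p) = a p ∧ |(b : ℝ) - f p| ≤ 1)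
    (hc : (N : ℝ) ^ (α - δ) ≤ ((Pool.Agent.H170R2.PC.PD α N).card : ℝ)) :
    (N : ℝ) ^ (α - δ) ≤ (Set.ncard {p : ℕ | InRange α N p ∧
      ∃ b : ℤ, ((b : ℤ) : ZMod p) = a p ∧ |(b : ℝ) - f p| ≤ (N : ℝ) ^ δ} : ℝ) := by
  refine hc.trans (le_of_eq ?_)
  rw [← Set.ncard_coe_finset]
  congr 2
  ext p
  rw [mem_coe, Pool.Agent.H170R2.PC.mem_PD]
  refine ⟨fun hp => ⟨hp, ?_⟩, fun hp => hp.1⟩
  obtain ⟨b, hb1, hb2⟩ := h p hp
  exact ⟨b, hb1, hb2.trans (Real.one_le_rpow (by exact_mod_cast hN) hδ)⟩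

/-- piecewise affine choices -/
theorem affine {α ρ ε : ℝ} (h1 : 1 / 2 ≤ α) (h2 : α < 1) (hρ1 : 1 - α ≤ ρ) (hρ2 : 2 * α - 1 ≤ ρ) (hε : 0 < ε) :
    ∃ N₀ : ℕ, ∀ N : ℕ, N₀ ≤ N → ∀ (a : (p : ℕ) → ZMod p) (s t : ℤ → ℝ), (∀ j, |t j| ≤ (N : ℝ) ^ α) →
      (∀ p : ℕ, InRange α N p → ∃ b : ℤ, ((b : ℤ) : ZMod p) = a p ∧
        |(b : ℝ) - (s ⌊(p : ℝ) / (N : ℝ) ^ ρ⌋ * p + t ⌊(p : ℝ) / (N : ℝ) ^ ρ⌋)| ≤ 1) →
      (N : ℝ) ^ (1 - ε) ≤ (coveredCount α N a : ℝ) := by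
  obtain ⟨η, hη⟩ : ∃ η, η = min (ε / 8) ((1 - α) / 2) := ⟨_, rfl⟩
  have hη0 : 0 < η := by rw [hη]; exact lt_min (by linarith) (by linarith)
  have hη1 : η ≤ ε / 8 := by rw [hη]; exact min_le_left _ _
  have hη2 : η ≤ (1 - α) / 2 := by rw [hη]; exact min_le_right _ _
  obtain ⟨N₁, hN₁⟩ := main (α := α) (θ := 1) (χ := -1) (κ := 0) (ρ := ρ) (δ := η) (ε := ε / 2) h1 h2 zero_le_one le_rfl
    le_rfl (by norm_num) hη0.le (by linarith) (by linarith) (by linarith)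
  obtain ⟨N₂, hN₂⟩ := eventually_atTop.1 (ev_card (show 0 < α by linarith) h2 hη0)
  refine ⟨N₁ + N₂ + 1, fun N hN a s t ht hp => ?_⟩
  have hN1 : 1 ≤ N := by omega
  have hNr : (1 : ℝ) ≤ N := by exact_mod_cast hN1
  have hcard := card_all (f := fun x => s ⌊x / (N : ℝ) ^ ρ⌋ * x + t ⌊x / (N : ℝ) ^ ρ⌋) hN1 hη0.le hp (hN₂ N (by omega))
  refine le_trans ?_ (hN₁ N (by omega) a ⟨fun x => s ⌊x / (N : ℝ) ^ ρ⌋ * x + t ⌊x / (N : ℝ) ^ ρ⌋,
    fun x => s ⌊x / (N : ℝ) ^ ρ⌋, ?_, ?_, hcard⟩)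
  · apply Real.rpow_le_rpow_of_exponent_le hNr
    have e1 : loss α 1 (-1) (0 + η) ≤ 0 := by
      unfold loss
      refine max_le le_rfl (max_le ?_ ?_)
      · apply div_nonpos_of_nonpos_of_nonneg <;> linarith
      · apply div_nonpos_of_nonpos_of_nonneg <;> linarith
    have e2 : max (loss α 1 (-1) (0 + η)) (1 - α - ρ) ≤ 0 := max_le e1 (by linarith)
    have e3 : max 0 (2 * α - 1 + 0 + η - ρ) ≤ η := max_le hη0.le (by linarith)
    linarith
  · intro x _ y _ hxy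
    simp only
    rw [hxy]
    have e : s ⌊y / (N : ℝ) ^ ρ⌋ * y + t ⌊y / (N : ℝ) ^ ρ⌋ - (s ⌊y / (N : ℝ) ^ ρ⌋ * x + t ⌊y / (N : ℝ) ^ ρ⌋) -
        (y - x) * s ⌊y / (N : ℝ) ^ ρ⌋ = 0 := by ring
    rw [e, abs_zero]
    positivity
  · intro x _
    simp only
    have e : s ⌊x / (N : ℝ) ^ ρ⌋ * x + t ⌊x / (N : ℝ) ^ ρ⌋ - x * s ⌊x / (N : ℝ) ^ ρ⌋ = t ⌊x / (N : ℝ) ^ ρ⌋ := by ring
    rw [e, add_zero]
    exact ht _

/-- choices near the dilates of a fixed function -/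
theorem fixed {α ε L : ℝ} {h h' : ℝ → ℝ} (h1 : 1 / 2 ≤ α) (h2 : α < 1)
    (hd : ∀ x ∈ Set.Icc (1 : ℝ) 2, HasDerivWithinAt h (h' x) (Set.Icc 1 2) x)
    (hL : ∀ x ∈ Set.Icc (1 : ℝ) 2, ∀ y ∈ Set.Icc (1 : ℝ) 2, |h' x - h' y| ≤ L * |x - y|) (hε : 0 < ε) :
    ∃ N₀ : ℕ, ∀ N : ℕ, N₀ ≤ N → ∀ a : (p : ℕ) → ZMod p,
      (∀ p : ℕ, InRange α N p → ∃ b : ℤ, ((b : ℤ) : ZMod p) = a p ∧
        |(b : ℝ) - (N : ℝ) ^ α * h (p / (N : ℝ) ^ α)| ≤ 1) →
      (N : ℝ) ^ (min 1 (α + 1 / 3) - ε) ≤ (coveredCount α N a : ℝ) := by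
  obtain ⟨η, hη⟩ : ∃ η, η = min (ε / 20) ((1 - α) / 4) := ⟨_, rfl⟩
  have hη0 : 0 < η := by rw [hη]; exact lt_min (by linarith) (by linarith)
  have hη1 : η ≤ ε / 20 := by rw [hη]; exact min_le_left _ _
  have hη2 : η ≤ (1 - α) / 4 := by rw [hη]; exact min_le_right _ _
  obtain ⟨N₁, hN₁⟩ := main (α := α) (θ := 1) (χ := η) (κ := η) (ρ := 1) (δ := η) (ε := ε / 2) h1 h2 zero_le_one le_rfl
    hη0.le le_rfl hη0.le (by linarith) (by linarith) (by linarith)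
  obtain ⟨N₂, hN₂⟩ := eventually_atTop.1 ((ev_card (show 0 < α by linarith) h2 hη0).and
    ((ev_const' hη0 L).and (ev_const' hη0 (|h 1| + 3 * |h' 1| + 3 * |L|))))
  refine ⟨N₁ + N₂ + 1, fun N hN a hp => ?_⟩
  have hN1 : 1 ≤ N := by omega
  have hNr : (1 : ℝ) ≤ N := by exact_mod_cast hN1
  have hN0 : (0 : ℝ) < N := by linarith
  obtain ⟨g1, g2, g3⟩ := hN₂ N (by omega)
  obtain ⟨P, hP⟩ : ∃ P : ℝ, P = (N : ℝ) ^ α := ⟨_, rfl⟩
  have hP0 : 0 < P := by rw [hP]; positivity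
  have hmem : ∀ x ∈ Set.Icc P (2 * P), x / P ∈ Set.Icc (1 : ℝ) 2 := by
    intro x hx
    rw [Set.mem_Icc] at hx ⊢
    rw [le_div_iff₀ hP0, div_le_iff₀ hP0]
    constructor <;> linarith [hx.1, hx.2]
  rw [← hP] at hp
  have hcard := card_all (f := fun x => P * h (x / P)) hN1 hη0.le hp g1
  refine le_trans ?_ (hN₁ N (by omega) a ⟨fun x => P * h (x / P), fun x => h' (x / P), ?_, ?_, hcard⟩)
  · apply Real.rpow_le_rpow_of_exponent_le hNr
    have e1 : loss α 1 η (η + η) ≤ max 0 (2 / 3 - α) + 2 * η := by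
      unfold loss
      have f1 := le_max_left 0 (2 / 3 - α)
      have f2 := le_max_right 0 (2 / 3 - α)
      refine max_le (by linarith) (max_le ?_ ?_)
      · rw [div_le_iff₀ (by norm_num)]
        linarith
      · rw [div_le_iff₀ (by norm_num)]
        linarith
    have e2 : max (loss α 1 η (η + η)) (1 - α - 1) ≤ max 0 (2 / 3 - α) + 2 * η := by
      refine max_le e1 ?_
      have f1 := le_max_left 0 (2 / 3 - α)
      linarith
    have e3 : max 0 (2 * α - 1 + η + η - 1) ≤ 0 := max_le le_rfl (by linarith)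
    have e4 : min 1 (α + 1 / 3) ≤ 1 - max 0 (2 / 3 - α) := by
      rcases le_total 0 (2 / 3 - α) with hc | hc
      · rw [max_eq_right hc]
        refine (min_le_right _ _).trans (by linarith)
      · rw [max_eq_left hc]
        refine (min_le_left _ _).trans (by linarith)
    linarith
  · rw [← hP]
    intro x hx y hy _
    have h3 := taylor hd hL (hmem x hx) (hmem y hy)
    have e : P * h (y / P) - P * h (x / P) - (y - x) * h' (x / P) =
        P * (h (y / P) - h (x / P) - (y / P - x / P) * h' (x / P)) := by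
      field_simp
    simp only
    rw [e, abs_mul, abs_of_pos hP0, Real.rpow_one]
    calc P * |h (y / P) - h (x / P) - (y / P - x / P) * h' (x / P)| ≤ P * (L * |y / P - x / P| ^ 2) := by gcongr
      _ = L * |y - x| * (|y - x| / P) := by
          rw [← sub_div, abs_div, abs_of_pos hP0]
          field_simp
      _ ≤ (N : ℝ) ^ η * |y - x| * (|y - x| / P) := by gcongr
  · intro x hx
    rw [← hP] at hx
    obtain ⟨u, hu⟩ : ∃ u : ℝ, u = x / P := ⟨_, rfl⟩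
    have hxu : x = P * u := by rw [hu]; field_simp
    have hum := hmem x hx
    rw [← hu] at hum
    have hone : (1 : ℝ) ∈ Set.Icc (1 : ℝ) 2 := ⟨le_rfl, by norm_num⟩
    have h3 := taylor hd hL hone hum
    have h4 := hL u hum 1 hone
    have hu1 : |u - 1| ≤ 1 := by
      rw [abs_le]
      constructor <;> linarith [hum.1, hum.2]
    have h5 : |h u - h 1 - (u - 1) * h' 1| ≤ |L| := by
      refine h3.trans ?_
      have : |u - 1| ^ 2 ≤ 1 := pow_le_one₀ (abs_nonneg _) hu1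
      have h6 := le_abs_self L
      have h7 := abs_nonneg L
      have h8 : 0 ≤ |u - 1| ^ 2 := by positivity
      nlinarith
    have h6 : |h' u - h' 1| ≤ |L| := by
      refine h4.trans ?_
      have h7 := le_abs_self L
      have h8 := abs_nonneg L
      have h9 := abs_nonneg (u - 1)
      nlinarith
    have h7 : |h u - u * h' u| ≤ |h 1| + 3 * |h' 1| + 3 * |L| := by
      have e : h u - u * h' u = (h u - h 1 - (u - 1) * h' 1) + h 1 - h' 1 - u * (h' u - h' 1) := by ring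
      rw [e]
      have i1 := abs_le.1 h5
      have i2 : |u * (h' u - h' 1)| ≤ 2 * |L| := by
        rw [abs_mul, abs_of_nonneg (show 0 ≤ u by linarith [hum.1])]
        apply mul_le_mul hum.2 h6 (abs_nonneg _) (by norm_num)
      have i3 := abs_le.1 i2
      have i4 := neg_abs_le (h 1)
      have i5 := le_abs_self (h 1)
      have i6 := neg_abs_le (h' 1)
      have i7 := le_abs_self (h' 1)
      have i8 := abs_nonneg (h' 1)
      have i9 := abs_nonneg L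
      rw [abs_le]
      constructor <;> linarith [i1.1, i1.2, i3.1, i3.2]
    simp only
    rw [← hu, hxu]
    have e : P * h u - P * u * h' u = P * (h u - u * h' u) := by ring
    rw [e, abs_mul, abs_of_pos hP0, Real.rpow_add hN0, ← hP]
    gcongr
    exact h7.trans g3

/-- Let `1/2 ≤ α < 1`.

(1) Choices `a` of the residue classes that follow a piecewise smooth function (`Follows`: first order expansions of
exponent `θ` and constant `N^χ` on the pieces of length `N^ρ`, tangents of height at most `N^(α+κ)` at `0`, distance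
`N^δ`, at least `N^(α-δ)` primes) cover at least `N^(1 - max loss (1-α-ρ) - max 0 (2α-1+κ+δ-ρ) - 3δ - ε)` of the
integers `1, …, N`, where `loss = max 0 ((χ+(1+θ)(1-α)-θα)/(2+θ)) ((χ+(1-θ)(1-α)+θ(κ+δ))/2)`.

(2) If `ρ ≥ 1-α, 2α-1` and for `j = ⌊p / N^ρ⌋` the class `a p` contains an integer at distance at most `1` from
`s_j p + t_j`, where `s_j`, `|t_j| ≤ N^α` are arbitrary reals, then `S_a(N) ≥ N^(1-ε)`.

(3) If the class `a p` contains an integer at distance at most `1` from `N^α h(p / N^α)`, where `h` has a Lipschitz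
derivative on `[1, 2]`, then `S_a(N) ≥ N^(min 1 (α + 1/3) - ε)`. -/
theorem result {α : ℝ} (h1 : 1 / 2 ≤ α) (h2 : α < 1) :
    (∀ θ χ κ ρ δ ε : ℝ, 0 ≤ θ → θ ≤ 1 → 0 ≤ κ → χ ≤ κ → 0 ≤ δ → κ + δ < 1 - α → 0 < ρ → 0 < ε →
      ∃ N₀ : ℕ, ∀ N : ℕ, N₀ ≤ N → ∀ a : (p : ℕ) → ZMod p, Follows α N θ χ κ ρ δ a →
        (N : ℝ) ^ (1 - max (loss α θ χ (κ + δ)) (1 - α - ρ) - max 0 (2 * α - 1 + κ + δ - ρ) - 3 * δ - ε) ≤
          (coveredCount α N a : ℝ)) ∧
    (∀ ρ ε : ℝ, 1 - α ≤ ρ → 2 * α - 1 ≤ ρ → 0 < ε →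
      ∃ N₀ : ℕ, ∀ N : ℕ, N₀ ≤ N → ∀ (a : (p : ℕ) → ZMod p) (s t : ℤ → ℝ), (∀ j, |t j| ≤ (N : ℝ) ^ α) →
        (∀ p : ℕ, InRange α N p → ∃ b : ℤ, ((b : ℤ) : ZMod p) = a p ∧
          |(b : ℝ) - (s ⌊(p : ℝ) / (N : ℝ) ^ ρ⌋ * p + t ⌊(p : ℝ) / (N : ℝ) ^ ρ⌋)| ≤ 1) →
        (N : ℝ) ^ (1 - ε) ≤ (coveredCount α N a : ℝ)) ∧
    (∀ (h h' : ℝ → ℝ) (L : ℝ), (∀ x ∈ Set.Icc (1 : ℝ) 2, HasDerivWithinAt h (h' x) (Set.Icc 1 2) x) →
      (∀ x ∈ Set.Icc (1 : ℝ) 2, ∀ y ∈ Set.Icc (1 : ℝ) 2, |h' x - h' y| ≤ L * |x - y|) → ∀ ε : ℝ, 0 < ε →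
      ∃ N₀ : ℕ, ∀ N : ℕ, N₀ ≤ N → ∀ a : (p : ℕ) → ZMod p,
        (∀ p : ℕ, InRange α N p → ∃ b : ℤ, ((b : ℤ) : ZMod p) = a p ∧
          |(b : ℝ) - (N : ℝ) ^ α * h (p / (N : ℝ) ^ α)| ≤ 1) →
        (N : ℝ) ^ (min 1 (α + 1 / 3) - ε) ≤ (coveredCount α N a : ℝ)) :=
  ⟨fun _ _ _ _ _ _ a1 a2 a3 a4 a5 a6 a7 a8 => main h1 h2 a1 a2 a3 a4 a5 a6 a7 a8,
    fun _ _ a1 a2 a3 => affine h1 h2 a1 a2 a3,
    fun _ _ _ a1 a2 _ a3 => fixed h1 h2 a1 a2 a3⟩

end Pool.Agent.Results.MP_bb5cc8_nt.PiecewiseSmoothH24
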