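import Pool.Agent.V7H13.BB.Asym
import Pool.Agent.Results.MP_bb5cc8_nt.ReciprocalEnergy

/-!
# Covering `[1, N]` by one residue class for each prime near `N^α`: sums of reciprocals with
coefficients

`coveredCount α N a` is the number `S_a(N)` of integers of `[1, N]` in a chosen class modulo some
prime `N^α ≤ p < 2 N^α`, and `LowerExponent α c` says `S_a(N) ≥ N^{c - o(1)}` uniformly in the
choice `a` (definitions in `Pool/Agent/H170R2/PC/Defs.lean`).  `coveredBy D N a` is the number of the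
integers of `[1, N]` in a chosen class modulo some prime of the set `D`.

The method: for a point `n` in many classes `p`, and another class `q` meeting many of them, the
reciprocals `1/p` modulo `q` lie in a dilate of a short interval.  The starting file
`ReciprocalEnergy` counts pairs of sums of `h` reciprocals which agree modulo `q`.  Here the sums
`∑ c_p / p` have integer coefficients `1 ≤ c_p ≤ N^γ`; the numerator of a nonzero difference of two
such sums still has at most `2h` prime factors near `N^α` as `γ < α`.  The coefficients make the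
number of the sums large compared with the length of the interval before the number of summands
does, and the optimal `γ` is `α/h - (2α - 1)`.  The primes may be restricted to an arbitrary set `D`
of `N^β` primes.
-/

set_option autoImplicit false

namespace Pool.Agent.Results.MP_bb5cc8_nt.WeightedReciprocalsH13

open Pool.Agent.H170R2.PC Finset

/-- the number of the integers `1 ≤ n ≤ N` in the class `a p` modulo `p` for at least one `p ∈ D` -/
noncomputable def coveredBy (D : Finset ℕ) (N : ℕ) (a : (p : ℕ) → ZMod p) : ℕ :=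
  Set.ncard {n : ℕ | 1 ≤ n ∧ n ≤ N ∧ ∃ p ∈ D, (n : ZMod p) = a p}

/-- the exponent for `N^β` primes near `N^α`, with `h` summands and coefficients up to `N^γ` -/
noncomputable def expoW (α β γ : ℝ) (h : ℕ) : ℝ :=
  min ((3 - 3 * α + β + γ - (1 - α + γ) / h) / 2) (2 - 2 * α + (α + β - 1 - γ) / (2 * h))

/-- the exponent for all primes near `N^α`, with the optimal `γ` -/
noncomputable def expoH (α : ℝ) (h : ℕ) : ℝ := 2 - 2 * α + (2 * α - 1) / h - α / (2 * (h : ℝ) ^ 2)

lemma coveredBy_eq (D : Finset ℕ) (N : ℕ) (a : (p : ℕ) → ZMod p) :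
    coveredBy D N a = (Cov D a N).card := by
  classical
  rw [coveredBy, ← Set.ncard_coe_finset]
  congr 1
  ext n
  rw [Set.mem_ofPred_eq, mem_coe, Cov, mem_filter, mem_Icc]
  exact ⟨fun h => ⟨⟨h.1, h.2.1⟩, h.2.2⟩, fun h => ⟨h.1.1, h.1.2, h.2⟩⟩

lemma sub_le {α γ η : ℝ} {h : ℕ} (hh : 1 ≤ h) (hη : 0 ≤ η) :
    expoW α α γ h - η / 2 ≤ expoW α (α - η) γ h := by
  have hhR : (1 : ℝ) ≤ h := by exact_mod_cast hh
  have h0 : (0 : ℝ) < h := by linarith
  unfold expoW
  have e1 : η / (2 * h) ≤ η / 2 := by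
    rw [div_le_div_iff₀ (by positivity) (by norm_num)]
    nlinarith
  have e2 : (α + (α - η) - 1 - γ) / (2 * h) = (α + α - 1 - γ) / (2 * h) - η / (2 * h) := by
    rw [← sub_div]
    congr 1
    ring
  refine le_min ?_ ?_
  · have := min_le_left ((3 - 3 * α + α + γ - (1 - α + γ) / h) / 2)
      (2 - 2 * α + (α + α - 1 - γ) / (2 * h))
    linarith
  · have := min_le_right ((3 - 3 * α + α + γ - (1 - α + γ) / h) / 2)
      (2 - 2 * α + (α + α - 1 - γ) / (2 * h))
    rw [e2]
    linarith

/-- **Theorem.** Let `1/2 < α < 1` and `h ≥ 1`.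
(1) For `1 - α ≤ β`, `0 ≤ γ < α`, `ε > 0` and all large `N`: whenever `D` is a set of at least `N^β`
primes in `[N^α, 2 N^α)`, every choice of one class modulo each prime of `D` covers at least
`N^(expoW α β γ h - ε)` integers of `[1, N]`.
(2) For `0 ≤ γ < α`, `expoW α α γ h` is a lower exponent for the family of all these primes.
(3) If `h (2α - 1) ≤ α` then `expoH α h = 2 - 2α + (2α - 1)/h - α/(2h²)` is a lower exponent.
(4) If `h ≥ 2` and `h < α/(2α - 1) < h (h + 2)/(h + 1)` then it is larger than all the exponents of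
the starting file `ReciprocalEnergy`. -/
theorem result (α : ℝ) (h1 : 1 / 2 < α) (h2 : α < 1) (h : ℕ) (hh : 1 ≤ h) :
    (∀ β γ ε : ℝ, 1 - α ≤ β → 0 ≤ γ → γ < α → 0 < ε → ∃ N₀ : ℕ, ∀ N : ℕ, N₀ ≤ N →
      ∀ D : Finset ℕ, (∀ p ∈ D, p.Prime ∧ (N : ℝ) ^ α ≤ (p : ℝ) ∧ (p : ℝ) < 2 * (N : ℝ) ^ α) →
        (N : ℝ) ^ β ≤ (D.card : ℝ) → ∀ a : (p : ℕ) → ZMod p,
          (N : ℝ) ^ (expoW α β γ h - ε) ≤ (coveredBy D N a : ℝ)) ∧
    (∀ γ : ℝ, 0 ≤ γ → γ < α → LowerExponent α (expoW α α γ h)) ∧
    (h * (2 * α - 1) ≤ α → LowerExponent α (expoH α h)) ∧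
    (2 ≤ h → h * (2 * α - 1) < α → (h + 1) * α < h * (h + 2) * (2 * α - 1) →
      ∀ k : ℕ, 1 ≤ k → ReciprocalEnergy.expo α k < expoH α h) := by
  have hhR : (1 : ℝ) ≤ h := by exact_mod_cast hh
  have h0 : (0 : ℝ) < h := by linarith
  have hA : 0 < 2 * α - 1 := by linarith
  have main1 : ∀ β γ ε : ℝ, 1 - α ≤ β → 0 ≤ γ → γ < α → 0 < ε → ∃ N₀ : ℕ, ∀ N : ℕ, N₀ ≤ N →
      ∀ D : Finset ℕ, (∀ p ∈ D, p.Prime ∧ (N : ℝ) ^ α ≤ (p : ℝ) ∧ (p : ℝ) < 2 * (N : ℝ) ^ α) →
        (N : ℝ) ^ β ≤ (D.card : ℝ) → ∀ a : (p : ℕ) → ZMod p,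
          (N : ℝ) ^ (expoW α β γ h - ε) ≤ (coveredBy D N a : ℝ) := by
    intro β γ ε hβ hγ hγα hε
    obtain ⟨N₀, hN₀⟩ := Pool.Agent.V7H13.BB.exp_words h1 h2 hβ hγ hγα hh hε
    refine ⟨N₀, fun N hN D hD hc a => ?_⟩
    rw [coveredBy_eq]
    exact hN₀ N hN D hD hc a
  have main2 : ∀ γ : ℝ, 0 ≤ γ → γ < α → LowerExponent α (expoW α α γ h) := by
    intro γ hγ hγα ε hε
    set η : ℝ := min (ε / 2) ((2 * α - 1) / 2) with hη
    have hη0 : 0 < η := lt_min (by linarith) (by linarith)
    have hη1 : η ≤ ε / 2 := min_le_left _ _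
    have hη2 : η ≤ (2 * α - 1) / 2 := min_le_right _ _
    obtain ⟨N₁, hN₁⟩ := main1 (α - η) γ (ε / 2) (by linarith) hγ hγα (by linarith)
    obtain ⟨N₂, hN₂⟩ := Filter.eventually_atTop.mp
      (ev_card (η := η) (by linarith : 0 < α) h2.le hη0 (by linarith))
    refine ⟨max (max N₁ N₂) 1, fun N hN a => ?_⟩
    have hNa : N₁ ≤ N := (le_max_left _ _).trans ((le_max_left _ _).trans hN)
    have hNb : N₂ ≤ N := (le_max_right _ _).trans ((le_max_left _ _).trans hN)
    have hNc : 1 ≤ N := (le_max_right _ _).trans hN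
    have e1 := hN₁ N hNa (PD α N) (fun p hp => mem_PD.mp hp) (hN₂ N hNb) a
    rw [coveredBy_eq, ← coveredCount_eq] at e1
    refine le_trans ?_ e1
    refine Real.rpow_le_rpow_of_exponent_le (by exact_mod_cast hNc) ?_
    have := sub_le (α := α) (γ := γ) hh hη0.le
    linarith
  refine ⟨main1, main2, ?_, ?_⟩
  · intro hA1
    have hγ : 0 ≤ α / h - (2 * α - 1) := by
      rw [sub_nonneg, le_div_iff₀ h0]
      linarith
    have hγα : α / h - (2 * α - 1) < α := by
      have : α / h ≤ α := div_le_self (by linarith) hhR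
      linarith
    have e := main2 _ hγ hγα
    have e1 : expoW α α (α / h - (2 * α - 1)) h = expoH α h := by
      unfold expoW expoH
      rw [min_eq_left]
      · field_simp
        ring
      · apply le_of_eq
        field_simp
        ring
    rwa [e1] at e
  · intro hh2 hlt hgt k hk
    have hh2R : (2 : ℝ) ≤ h := by exact_mod_cast hh2
    have hkR : (1 : ℝ) ≤ k := by exact_mod_cast hk
    have hk0 : (0 : ℝ) < k := by linarith
    have hα23 : α < 2 / 3 := by nlinarith
    have hx0 : 0 < 1 / (h : ℝ) := by positivity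
    have hx : 1 / (h : ℝ) ≤ 1 / 2 := by
      rw [div_le_div_iff₀ h0 (by norm_num)]
      linarith
    have hxe : expoH α h = 2 - 2 * α + (2 * α - 1) * (1 / h) - α / 2 * (1 / h) ^ 2 := by
      unfold expoH
      field_simp
    have hxlt : 2 * α - 1 < α * (1 / h) := by
      rw [mul_one_div, lt_div_iff₀ h0]
      linarith
    have hxgt : α * (1 / h) * (1 + 1 / h) < (1 + 2 * (1 / h)) * (2 * α - 1) := by
      have e1 : α * (1 / h) * (1 + 1 / h) = ((h + 1) * α) / (h : ℝ) ^ 2 := by
        field_simp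
      have e2 : (1 + 2 * (1 / h)) * (2 * α - 1) = (h * (h + 2) * (2 * α - 1)) / (h : ℝ) ^ 2 := by
        field_simp
      rw [e1, e2]
      exact div_lt_div_of_pos_right hgt (by positivity)
    rw [hxe]
    generalize hxd : (1 / (h : ℝ)) = x at *
    unfold ReciprocalEnergy.expo
    refine max_lt ?_ ?_
    · rcases le_or_gt k h with hkh | hkh
      · refine (min_le_left _ _).trans_lt ?_
        have hkhR : (k : ℝ) ≤ h := by exact_mod_cast hkh
        have e1 : x ≤ 1 / k := by
          rw [← hxd]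
          exact one_div_le_one_div_of_le hk0 hkhR
        have e2 : (1 - α) * x ≤ (1 - α) / k := by
          rw [div_eq_mul_one_div (1 - α)]
          exact mul_le_mul_of_nonneg_left e1 (by linarith)
        nlinarith [mul_pos (sub_pos.mpr hxlt) (by linarith : 0 < 1 - x)]
      · refine (min_le_right _ _).trans_lt ?_
        have hkhR : (h : ℝ) + 1 ≤ k := by exact_mod_cast hkh
        have e1 : (2 * α - 1) / (2 * k) ≤ (2 * α - 1) / (2 * (h + 1)) :=
          div_le_div_of_nonneg_left hA.le (by positivity) (by linarith)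
        have e2 : (2 * α - 1) / (2 * ((h : ℝ) + 1)) = (2 * α - 1) * x / (2 * (1 + x)) := by
          rw [← hxd]
          field_simp
        have e3 : (2 * α - 1) * x / (2 * (1 + x)) < (2 * α - 1) * x - α / 2 * x ^ 2 := by
          rw [div_lt_iff₀ (by positivity)]
          nlinarith [mul_lt_mul_of_pos_left hxgt hx0]
        linarith
    · nlinarith [mul_pos hx0 hA, mul_pos (sub_pos.mpr hxlt) hx0]

end Pool.Agent.Results.MP_bb5cc8_nt.WeightedReciprocalsH13
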